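import Mathlib

/-! Closure properties of oracle computability over `ComputableIn`. -/

namespace Pool.Agent.Lib.Oracle

open Encodable Part

variable {α β γ σ : Type*} [Primcodable α] [Primcodable β] [Primcodable γ] [Primcodable σ]
variable {O : Set (ℕ →. ℕ)}

theorem natRec_prec' {f g h : ℕ →. ℕ} (hf : Nat.RecursiveIn O f) (hg : Nat.RecursiveIn O g)
    (hh : Nat.RecursiveIn O h) :
    Nat.RecursiveIn O fun a => (f a).bind fun n => n.rec (g a)
      fun y IH => do {let i ← IH; h (Nat.pair a (Nat.pair y i))} :=
  ((Nat.RecursiveIn.prec hg hh).comp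
    (Nat.RecursiveIn.pair Nat.Partrec.some.recursiveIn hf)).of_eq fun a =>
    ext fun s => by simp [Seq.seq]

set_option backward.isDefEq.respectTransparency false in
theorem recIn_bind {f : α →. β} {g : α → β →. σ} (hf : RecursiveIn O f)
    (hg : RecursiveIn O fun p : α × β => g p.1 p.2) :
    RecursiveIn O fun a => (f a).bind (g a) :=
  (Nat.RecursiveIn.comp hg
    (Nat.RecursiveIn.pair Nat.Partrec.some.recursiveIn hf)).of_eq fun n => by
    rcases e : decode (α := α) n <;> simp [Seq.seq, e, encodek]

theorem recIn_comp {f : β →. σ} {g : α → β} (hf : RecursiveIn O f) (hg : ComputableIn O g) :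
    RecursiveIn O fun a => f (g a) :=
  (Nat.RecursiveIn.comp hf hg).of_eq fun n => by
    simp only [map_some, bind_eq_bind]
    rcases e : decode (α := α) n with - | a <;> simp [encodek]

theorem cin_comp {f : β → σ} {g : α → β} (hf : ComputableIn O f) (hg : ComputableIn O g) :
    ComputableIn O fun a => f (g a) :=
  recIn_comp (f := fun b => Part.some (f b)) hf hg

theorem cin_pair {f : α → β} {g : α → γ} (hf : ComputableIn O f) (hg : ComputableIn O g) :
    ComputableIn O fun a => (f a, g a) :=
  (Nat.RecursiveIn.pair hf hg).of_eq fun n => by cases decode (α := α) n <;> simp [Seq.seq]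

theorem cin_of_eq {f g : α → σ} (hf : ComputableIn O f) (H : ∀ n, f n = g n) :
    ComputableIn O g :=
  (funext H : f = g) ▸ hf

theorem recIn_map {f : α →. β} {g : α → β → σ} (hf : RecursiveIn O f)
    (hg : ComputableIn O fun p : α × β => g p.1 p.2) :
    RecursiveIn O fun a => (f a).map (g a) := by
  simpa [bind_some_eq_map] using recIn_bind (g := fun a x => Part.some (g a x)) hf hg

theorem recIn_nat_rec {f : α → ℕ} {g : α →. σ} {h : α → ℕ × σ →. σ} (hf : ComputableIn O f)
    (hg : RecursiveIn O g) (hh : RecursiveIn O fun p : α × (ℕ × σ) => h p.1 p.2) :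
    RecursiveIn O fun a => (f a).rec (g a) fun y IH => IH.bind fun i => h a (y, i) :=
  (natRec_prec' hf hg hh).of_eq fun n => by
    rcases e : decode (α := α) n with - | a
    · simp
    · simp only [coe_some, bind_some, map_some]
      induction f a <;> simp_all

theorem cin_nat_rec {f : α → ℕ} {g : α → σ} {h : α → ℕ × σ → σ} (hf : ComputableIn O f)
    (hg : ComputableIn O g) (hh : ComputableIn O fun p : α × (ℕ × σ) => h p.1 p.2) :
    ComputableIn O fun a => Nat.rec (motive := fun _ => σ) (g a) (fun y IH => h a (y, IH)) (f a) :=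
  (recIn_nat_rec (h := fun a p => Part.some (h a p)) hf hg hh).of_eq fun a => by
    beta_reduce
    induction f a <;> simp [*]

set_option backward.isDefEq.respectTransparency false in
theorem recIn_rfind {p : α → ℕ →. Bool} (hp : RecursiveIn O fun q : α × ℕ => p q.1 q.2) :
    RecursiveIn O fun a => Nat.rfind (p a) :=
  (Nat.RecursiveIn.rfind <|
        recIn_map (g := fun _ b => cond b 0 1) hp
          ((Primrec.dom_bool fun b => cond b 0 1).comp Primrec.snd).computableIn).of_eq
    fun n => by
    rcases e : decode (α := α) n <;> simp [e, Nat.rfind_zero_none, map_map, map_id']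

/-- Unbounded search. -/
theorem cin_find {p : α → ℕ → Bool} (hp : ComputableIn O fun q : α × ℕ => p q.1 q.2)
    (hex : ∀ a, ∃ n, p a n = true) : ComputableIn O fun a => Nat.find (hex a) := by
  have h : RecursiveIn O fun a => Nat.rfind (fun n => Part.some (p a n)) :=
    recIn_rfind (p := fun a n => Part.some (p a n)) hp
  have e : (fun a => Nat.rfind (fun n => Part.some (p a n))) =
      fun a => Part.some (Nat.find (hex a)) := by
    funext a
    apply Part.eq_some_iff.2
    apply Nat.mem_rfind.2
    constructor
    · simpa using (Nat.find_spec (hex a)).symm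
    · intro m hm
      have := Nat.find_min (hex a) hm
      simpa using this
  rw [e] at h
  exact h

/-- The first `n` values of a sequence. -/
def pre {δ : Type*} (B : ℕ → δ) (n : ℕ) : List δ := (List.range n).map B

theorem pre_succ {δ : Type*} (B : ℕ → δ) (n : ℕ) : pre B (n + 1) = pre B n ++ [B n] := by
  simp [pre, List.range_succ]

@[simp] theorem pre_zero {δ : Type*} (B : ℕ → δ) : pre B 0 = [] := rfl

@[simp] theorem length_pre {δ : Type*} (B : ℕ → δ) (n : ℕ) : (pre B n).length = n := by
  simp [pre]

theorem take_pre {δ : Type*} (B : ℕ → δ) {u n : ℕ} (h : u ≤ n) : (pre B n).take u = pre B u := by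
  simp [pre, ← List.map_take, List.take_range, min_eq_left h]

theorem pre_isPrefix {δ : Type*} (B : ℕ → δ) {u n : ℕ} (h : u ≤ n) : pre B u <+: pre B n := by
  rw [← take_pre B h]; exact List.take_prefix _ _

theorem getD_pre {δ : Type*} (B : ℕ → δ) {i n : ℕ} (h : i < n) (d : δ) :
    (pre B n).getD i d = B i := by
  simp [pre, List.getD, h]

theorem getElem?_pre {δ : Type*} (B : ℕ → δ) {i n : ℕ} (h : i < n) :
    (pre B n)[i]? = Option.some (B i) := by
  simp [pre, h]

theorem pre_congr {δ : Type*} {B C : ℕ → δ} {n : ℕ} (h : ∀ i < n, B i = C i) :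
    pre B n = pre C n := by
  unfold pre
  exact List.map_congr_left fun i hi => h i (List.mem_range.mp hi)

attribute [local irreducible] ComputableIn in
theorem cin_pre {g : ℕ → σ} (hg : ComputableIn O g) : ComputableIn O (pre g) := by
  have h1 : ComputableIn O fun p : ℕ × (ℕ × List σ) => (p.2.2, g p.2.1) :=
    cin_pair (Primrec.snd.comp Primrec.snd).computableIn
        (cin_comp hg (Primrec.fst.comp Primrec.snd).computableIn)
  have h2 : ComputableIn O fun p : ℕ × (ℕ × List σ) => p.2.2 ++ [g p.2.1] :=
    cin_comp (f := fun q : List σ × σ => q.1 ++ [q.2]) (Primrec.computableIn Primrec.list_concat) h1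
  have h := cin_nat_rec (O := O) (f := fun n : ℕ => n) (g := fun _ => ([] : List σ))
    (h := fun _ p => p.2 ++ [g p.1]) ComputableIn.id (ComputableIn.const _) h2
  refine cin_of_eq h fun n => ?_
  induction n with
  | zero => rfl
  | succ n ih => rw [pre_succ, ← ih]

/-- The characteristic function of a point of Cantor space, as an oracle. -/
def chi (A : ℕ → Bool) : ℕ →. ℕ := fun n => Part.some (A n).toNat

theorem encode_bool (b : Bool) : encode b = b.toNat := by cases b <;> rfl

theorem red_chi_iff {X : ℕ → Bool} : RecursiveIn O (chi X) ↔ ComputableIn O X := by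
  unfold ComputableIn RecursiveIn chi
  simp [encode_bool]

theorem cin_self (A : ℕ → Bool) : ComputableIn {chi A} A :=
  red_chi_iff.mp (TuringReducible.refl _)

theorem cin_trans {A B : ℕ → Bool} {f : α → σ} (hf : ComputableIn {chi A} f)
    (hA : ComputableIn {chi B} A) : ComputableIn {chi B} f :=
  RecursiveIn.subst hf fun g hg => by
    rw [Set.mem_singleton_iff.mp hg]; exact red_chi_iff.mpr hA

end Pool.Agent.Lib.Oracle
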