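import Pool.Agent.Lib.Oracle.Basic

/-! The use principle: a function recursive in an oracle `A` is computed by a monotone partial
recursive function of finite initial segments of `A`. -/

namespace Pool.Agent.Lib.Oracle

open Encodable Part Filter

/-- Monotonicity in the finite oracle. -/
def Mono (ψ : List Bool → ℕ →. ℕ) : Prop :=
  ∀ σ τ : List Bool, σ <+: τ → ∀ x y, y ∈ ψ σ x → y ∈ ψ τ x

theorem nf_of_computable (A : ℕ → Bool) {f : ℕ → ℕ} (hf : Computable f) :
    ∃ ψ : List Bool → ℕ →. ℕ, Partrec₂ ψ ∧ Mono ψ ∧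
      ∀ x y, y ∈ (f : ℕ →. ℕ) x → ∀ᶠ n in atTop, y ∈ ψ (pre A n) x :=
  ⟨fun _ x => Part.some (f x), (hf.comp Computable.snd).partrec, fun _ _ _ _ _ h => h,
    fun _ _ h => Eventually.of_forall fun _ => h⟩

theorem nf (A : ℕ → Bool) {f : ℕ →. ℕ} (hf : Nat.RecursiveIn {chi A} f) :
    ∃ ψ : List Bool → ℕ →. ℕ, Partrec₂ ψ ∧ Mono ψ ∧
      ∀ x y, y ∈ f x → ∀ᶠ n in atTop, y ∈ ψ (pre A n) x := by
  induction hf with
  | zero => exact nf_of_computable A (f := fun _ => 0) (Computable.const 0)
  | succ => exact nf_of_computable A Computable.succ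
  | left => exact nf_of_computable A (f := fun n => n.unpair.1) (Computable.fst.comp Computable.unpair)
  | right => exact nf_of_computable A (f := fun n => n.unpair.2) (Computable.snd.comp Computable.unpair)
  | oracle g hg =>
    rw [Set.mem_singleton_iff.mp hg]
    refine ⟨fun σ x => ((σ[x]?.map Bool.toNat : Option ℕ) : Part ℕ), ?_, ?_, ?_⟩
    · exact Computable.ofOption (Primrec.option_map Primrec.list_getElem?
        ((Primrec.dom_bool Bool.toNat).comp Primrec.snd).to₂).to_comp
    · intro σ τ ⟨ρ, h⟩ x y hy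
      subst h
      simp only [Part.mem_coe, Option.mem_def, Option.map_eq_some_iff] at hy ⊢
      obtain ⟨b, hb, rfl⟩ := hy
      refine ⟨b, ?_, rfl⟩
      rw [List.getElem?_append_left (List.getElem?_eq_some_iff.mp hb).1, hb]
    · intro x y hy
      filter_upwards [eventually_gt_atTop x] with n hn
      simp only [chi, Part.mem_some_iff] at hy
      simp [getElem?_pre A hn, hy]
  | @pair f h _ _ ihf ihh =>
    obtain ⟨ψ, pψ, mψ, aψ⟩ := ihf
    obtain ⟨φ, pφ, mφ, aφ⟩ := ihh
    refine ⟨fun σ x => (ψ σ x).bind fun a => (φ σ x).map (Nat.pair a), ?_, ?_, ?_⟩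
    · have h1 : Partrec fun q : (List Bool × ℕ) × ℕ => φ q.1.1 q.1.2 :=
        pφ.comp (Computable.fst.comp Computable.fst) (Computable.snd.comp Computable.fst)
      have h2 : Computable₂ fun (q : (List Bool × ℕ) × ℕ) (b : ℕ) => Nat.pair q.2 b :=
        (Primrec₂.natPair.comp (Primrec.snd.comp Primrec.fst) Primrec.snd).to_comp.to₂
      have h3 : Partrec₂ fun (p : List Bool × ℕ) (a : ℕ) => (φ p.1 p.2).map (Nat.pair a) :=
        (Partrec.map h1 h2).to₂
      exact Partrec.bind pψ h3
    · intro σ τ hp x y hy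
      simp only [Part.mem_bind_iff, Part.mem_map_iff] at hy ⊢
      obtain ⟨a, ha, b, hb, rfl⟩ := hy
      exact ⟨a, mψ _ _ hp _ _ ha, b, mφ _ _ hp _ _ hb, rfl⟩
    · intro x y hy
      simp only [Seq.seq, map_eq_map, Part.mem_bind_iff, Part.mem_map_iff] at hy
      obtain ⟨_, ⟨a, ha, rfl⟩, b, hb, rfl⟩ := hy
      filter_upwards [aψ x a ha, aφ x b hb] with n h1 h2
      simp only [Part.mem_bind_iff, Part.mem_map_iff]
      exact ⟨a, h1, b, h2, rfl⟩
  | @comp f h _ _ ihf ihh =>
    obtain ⟨ψ, pψ, mψ, aψ⟩ := ihf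
    obtain ⟨φ, pφ, mφ, aφ⟩ := ihh
    refine ⟨fun σ x => (φ σ x).bind fun a => ψ σ a, ?_, ?_, ?_⟩
    · have h3 : Partrec₂ fun (p : List Bool × ℕ) (a : ℕ) => ψ p.1 a :=
        (pψ.comp (Computable.fst.comp Computable.fst) Computable.snd).to₂
      exact Partrec.bind pφ h3
    · intro σ τ hp x y hy
      simp only [Part.mem_bind_iff] at hy ⊢
      obtain ⟨a, ha, hb⟩ := hy
      exact ⟨a, mφ _ _ hp _ _ ha, mψ _ _ hp _ _ hb⟩
    · intro x y hy
      simp only [bind_eq_bind, Part.mem_bind_iff] at hy
      obtain ⟨a, ha, hb⟩ := hy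
      filter_upwards [aφ x a ha, aψ a y hb] with n h1 h2
      simp only [Part.mem_bind_iff]
      exact ⟨a, h1, h2⟩
  | @prec f h _ _ ihf ihh =>
    obtain ⟨ψ, pψ, mψ, aψ⟩ := ihf
    obtain ⟨φ, pφ, mφ, aφ⟩ := ihh
    refine ⟨fun σ p => Nat.rec (motive := fun _ => Part ℕ) (ψ σ p.unpair.1)
      (fun y IH => IH.bind fun i => φ σ (Nat.pair p.unpair.1 (Nat.pair y i))) p.unpair.2, ?_, ?_, ?_⟩
    · have h1 : Computable fun q : List Bool × ℕ => q.2.unpair.2 :=
        (Primrec.snd.comp (Primrec.unpair.comp Primrec.snd)).to_comp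
      have h0 : Primrec fun q : List Bool × ℕ => q.2.unpair.1 :=
        Primrec.fst.comp (Primrec.unpair.comp Primrec.snd)
      have h2 : Partrec fun q : List Bool × ℕ => ψ q.1 q.2.unpair.1 :=
        pψ.comp Computable.fst h0.to_comp
      have h3 : Partrec₂ fun (q : List Bool × ℕ) (r : ℕ × ℕ) =>
          φ q.1 (Nat.pair q.2.unpair.1 (Nat.pair r.1 r.2)) :=
        (pφ.comp (Computable.fst.comp Computable.fst)
          (Primrec₂.natPair.comp (h0.comp Primrec.fst)
            (Primrec₂.natPair.comp (Primrec.fst.comp Primrec.snd)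
              (Primrec.snd.comp Primrec.snd))).to_comp).to₂
      exact Partrec.nat_rec h1 h2 h3
    · intro σ τ hp x
      beta_reduce
      generalize x.unpair.2 = k
      induction k with
      | zero => exact fun y hy => mψ _ _ hp _ _ hy
      | succ k ih =>
        intro y hy
        simp only [Part.mem_bind_iff] at hy ⊢
        obtain ⟨a, ha, hb⟩ := hy
        exact ⟨a, ih a ha, mφ _ _ hp _ _ hb⟩
    · intro x
      beta_reduce
      rcases hx : x.unpair with ⟨a, k⟩
      simp only [bind_eq_bind]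
      clear hx
      induction k with
      | zero => exact fun y hy => aψ _ _ hy
      | succ k ih =>
        intro y hy
        simp only [Part.mem_bind_iff] at hy ⊢
        obtain ⟨i, hi, hb⟩ := hy
        filter_upwards [ih i hi, aφ _ _ hb] with n h1 h2
        exact ⟨i, h1, h2⟩
  | @rfind f _ ihf =>
    obtain ⟨ψ, pψ, mψ, aψ⟩ := ihf
    refine ⟨fun σ a => Nat.rfind fun n => (ψ σ (Nat.pair a n)).map fun m => decide (m = 0),
      ?_, ?_, ?_⟩
    · have h1 : Partrec fun q : (List Bool × ℕ) × ℕ => ψ q.1.1 (Nat.pair q.1.2 q.2) :=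
        pψ.comp (Computable.fst.comp Computable.fst)
          (Primrec₂.natPair.comp (Primrec.snd.comp Primrec.fst) Primrec.snd).to_comp
      have h2 : Computable₂ fun (_ : (List Bool × ℕ) × ℕ) (m : ℕ) => decide (m = 0) :=
        ((Primrec.eq.comp Primrec.snd (Primrec.const 0)).decide).to_comp.to₂
      exact Partrec.rfind (Partrec.map h1 h2).to₂
    · intro σ τ hp x y hy
      obtain ⟨h1, h2⟩ := Nat.mem_rfind.1 hy
      refine Nat.mem_rfind.2 ⟨?_, fun {m} hm => ?_⟩
      · simp only [Part.mem_map_iff] at h1 ⊢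
        obtain ⟨a, ha, hb⟩ := h1
        exact ⟨a, mψ _ _ hp _ _ ha, hb⟩
      · have := h2 hm
        simp only [Part.mem_map_iff] at this ⊢
        obtain ⟨a, ha, hb⟩ := this
        exact ⟨a, mψ _ _ hp _ _ ha, hb⟩
    · intro x y hy
      obtain ⟨h1, h2⟩ := Nat.mem_rfind.1 hy
      simp only [map_eq_map, Part.mem_map_iff] at h1 h2
      obtain ⟨a, ha, hb⟩ := h1
      have h3 : ∀ᶠ n in atTop, ∀ m ∈ Finset.range y,
          false ∈ (ψ (pre A n) (Nat.pair x m)).map fun m => decide (m = 0) := by
        rw [Filter.eventually_all_finset]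
        intro m hm
        obtain ⟨c, hc, hd⟩ := h2 (Finset.mem_range.mp hm)
        filter_upwards [aψ _ _ hc] with n hn
        exact (Part.mem_map_iff _).2 ⟨c, hn, hd⟩
      filter_upwards [h3, aψ _ _ ha] with n h4 h5
      exact Nat.mem_rfind.2 ⟨(Part.mem_map_iff _).2 ⟨a, h5, hb⟩,
        fun {m} hm => h4 m (Finset.mem_range.mpr hm)⟩

open Nat.Partrec Nat.Partrec.Code

/-- Step-bounded evaluation of the code `c` with the finite oracle `σ`. -/
def Phi (c : Code) (σ : List Bool) (x : ℕ) : Option ℕ :=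
  ((List.range (σ.length + 1)).filterMap fun u => evaln σ.length c (encode (σ.take u, x))).head?

theorem primrec_Phi : Primrec fun q : Code × List Bool × ℕ => Phi q.1 q.2.1 q.2.2 := by
  have hσ : Primrec fun q : Code × List Bool × ℕ => q.2.1 := Primrec.fst.comp Primrec.snd
  have h1 : Primrec fun q : Code × List Bool × ℕ => List.range (q.2.1.length + 1) :=
    Primrec.list_range.comp (Primrec.succ.comp (Primrec.list_length.comp hσ))
  have h2 : Primrec fun r : (Code × List Bool × ℕ) × ℕ => encode (r.1.2.1.take r.2, r.1.2.2) :=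
    Primrec.encode.comp ((Primrec.list_take.comp Primrec.snd (hσ.comp Primrec.fst)).pair
      (Primrec.snd.comp (Primrec.snd.comp Primrec.fst)))
  have h3 : Primrec fun r : (Code × List Bool × ℕ) × ℕ =>
      evaln r.1.2.1.length r.1.1 (encode (r.1.2.1.take r.2, r.1.2.2)) :=
    primrec_evaln.comp (((Primrec.list_length.comp (hσ.comp Primrec.fst)).pair
      (Primrec.fst.comp Primrec.fst)).pair h2)
  exact Primrec.list_head?.comp (Primrec.listFilterMap h1 h3.to₂)

/-- A code whose evaluation is monotone in the finite oracle. -/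
def Good (c : Code) : Prop := Mono fun σ x => eval c (encode (σ, x))

theorem Phi_sound {c : Code} {σ : List Bool} {x y : ℕ} (h : Phi c σ x = Option.some y) :
    ∃ u ≤ σ.length, evaln σ.length c (encode (σ.take u, x)) = Option.some y := by
  have := List.mem_of_mem_head? (Option.mem_def.mpr h)
  simp only [List.mem_filterMap, List.mem_range] at this
  obtain ⟨u, hu, h⟩ := this
  exact ⟨u, by omega, h⟩

theorem Phi_of_evaln {c : Code} (hc : Good c) {σ : List Bool} {x y u : ℕ} (hu : u ≤ σ.length)
    (h : evaln σ.length c (encode (σ.take u, x)) = Option.some y) : Phi c σ x = Option.some y := by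
  have hne : ((List.range (σ.length + 1)).filterMap
      fun u => evaln σ.length c (encode (σ.take u, x))) ≠ [] := by
    apply List.ne_nil_of_mem (a := y)
    simp only [List.mem_filterMap, List.mem_range]
    exact ⟨u, by omega, h⟩
  obtain ⟨z, hz⟩ : ∃ z, Phi c σ x = Option.some z := by
    unfold Phi
    exact ⟨_, List.head?_eq_some_head hne⟩
  obtain ⟨v, -, hv⟩ := Phi_sound hz
  have h1 := hc _ σ (List.take_prefix u σ) x y (evaln_sound (Option.mem_def.mpr h))
  have h2 := hc _ σ (List.take_prefix v σ) x z (evaln_sound (Option.mem_def.mpr hv))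
  rw [hz, Part.mem_unique h1 h2]

theorem Phi_mono {c : Code} (hc : Good c) {σ τ : List Bool} (hp : σ <+: τ) {x y : ℕ}
    (h : Phi c σ x = Option.some y) : Phi c τ x = Option.some y := by
  obtain ⟨u, hu, h⟩ := Phi_sound h
  have hl := hp.length_le
  refine Phi_of_evaln hc (hu.trans hl) ?_
  obtain ⟨ρ, rfl⟩ := hp
  rw [List.take_append_of_le_length hu]
  exact Option.mem_def.mp (evaln_mono hl (Option.mem_def.mpr h))

/-- Normal form for total functions computable in an oracle. -/
theorem exists_good_code (A : ℕ → Bool) {g : ℕ → ℕ} (hg : ComputableIn {chi A} g) :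
    ∃ c : Code, Good c ∧ ∀ x, ∀ᶠ n in atTop, Phi c (pre A n) x = Option.some (g x) := by
  obtain ⟨ψ, pψ, mψ, aψ⟩ := nf A (RecursiveIn.iff_nat.mp hg)
  obtain ⟨c, hc⟩ := exists_code.mp pψ
  have he : ∀ σ x, eval c (encode (σ, x)) = ψ σ x := by
    intro σ x
    rw [hc]
    simp only [encodek, Part.coe_some, Part.bind_some]
    exact Part.map_id' (fun _ => rfl) _
  have hgood : Good c := by
    unfold Good
    simpa only [he] using mψ
  refine ⟨c, hgood, fun x => ?_⟩
  obtain ⟨u, hu⟩ := (aψ x (g x) (Part.mem_some _)).exists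
  rw [← he, evaln_complete] at hu
  obtain ⟨k, hk⟩ := hu
  filter_upwards [eventually_ge_atTop u, eventually_ge_atTop k] with n h1 h2
  refine Phi_of_evaln hgood (u := u) (by simpa using h1) ?_
  rw [take_pre A h1, length_pre]
  exact Option.mem_def.mp (evaln_mono h2 hk)

/-- Only countably many functions are computable in a given oracle. -/
theorem countable_computableIn (A : ℕ → Bool) :
    {g : ℕ → ℕ | ComputableIn {chi A} g}.Countable := by
  classical
  let F : Code → ℕ → ℕ := fun c x =>
    if h : ∃ y, ∀ᶠ n in atTop, Phi c (pre A n) x = Option.some y then h.choose else 0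
  refine (Set.countable_range F).mono fun g hg => ?_
  obtain ⟨c, -, hc⟩ := exists_good_code A hg
  refine ⟨c, funext fun x => ?_⟩
  have h : ∃ y, ∀ᶠ n in atTop, Phi c (pre A n) x = Option.some y := ⟨_, hc x⟩
  simp only [F, dif_pos h]
  obtain ⟨n, h1, h2⟩ := (h.choose_spec.and (hc x)).exists
  exact Option.some_injective _ (h1.symm.trans h2)

theorem cin_toNat {O : Set (ℕ →. ℕ)} {X : ℕ → Bool} (h : ComputableIn O X) :
    ComputableIn O fun n => (X n).toNat :=
  cin_comp (Primrec.dom_bool Bool.toNat).computableIn h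

theorem countable_computableIn_bool (A : ℕ → Bool) :
    {X : ℕ → Bool | ComputableIn {chi A} X}.Countable := by
  have hinj : Function.Injective fun (X : ℕ → Bool) (n : ℕ) => (X n).toNat := by
    intro X Y h
    funext n
    have : (X n).toNat = (Y n).toNat := congrFun h n
    revert this
    cases X n <;> cases Y n <;> simp
  exact ((countable_computableIn A).preimage_of_injOn hinj.injOn).mono fun X hX => cin_toNat hX

end Pool.Agent.Lib.Oracle
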